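import Pool.Agent.Helper75.Torus.Goals

/-!
# Packet 2836 (PB): effect of a perturbation which is small in `C^{1,α}`
-/

set_option autoImplicit false

open Set MeasureTheory Matrix
open Pool.Agent.Helper75.Torus

namespace Pool.Agent.Helper67.Torus

lemma vec_sum (v : E) : v = ∑ j, v j • (Pi.single j (1 : ℝ) : E) := by
  ext i
  simp [Pi.single_apply]

lemma clm_sum (L : E →L[ℝ] ℝ) (v : E) : L v = ∑ j, v j * L (Pi.single j (1 : ℝ)) := by
  conv_lhs => rw [vec_sum v]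
  rw [map_sum]
  simp

lemma clm_bound (L : E →L[ℝ] ℝ) (M : ℝ) (h : ∀ j, |L (Pi.single j (1 : ℝ))| ≤ M) (v : E) :
    |L v| ≤ 3 * M * ‖v‖ := by
  rw [clm_sum L v]
  refine (Finset.abs_sum_le_sum_abs _ _).trans ?_
  have h1 : ∀ j ∈ (Finset.univ : Finset (Fin 3)), |v j * L (Pi.single j (1 : ℝ))| ≤ ‖v‖ * M := by
    intro j _
    rw [abs_mul]
    exact mul_le_mul (norm_le_pi_norm v j) (h j) (abs_nonneg _) (norm_nonneg _)
  refine (Finset.sum_le_sum h1).trans ?_
  simp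
  linarith

/-- mean value inequality -/
lemma mvt (f : E → ℝ) (hf : ContDiff ℝ 1 f) (x y : E) (M : ℝ)
    (h : ∀ z ∈ segment ℝ x y, ∀ j, |pd j f z| ≤ M) : |f y - f x| ≤ 3 * M * ‖y - x‖ := by
  have hd : Differentiable ℝ f := hf.differentiable one_ne_zero
  refine Convex.norm_image_sub_le_of_norm_fderiv_le (𝕜 := ℝ) (s := segment ℝ x y)
    (fun z _ => hd z) (fun z hz => ?_) (convex_segment x y) (left_mem_segment ℝ x y)
    (right_mem_segment ℝ x y)
  have hM : 0 ≤ M := (abs_nonneg _).trans (h z hz 0)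
  exact ContinuousLinearMap.opNorm_le_bound _ (by positivity)
    (fun v => clm_bound _ M (h z hz) v)

lemma pd_sub (f g : E → ℝ) (hf : ContDiff ℝ 1 f) (hg : ContDiff ℝ 1 g) (j : Fin 3) (x : E) :
    pd j (fun z => f z - g z) x = pd j f x - pd j g x := by
  unfold pd
  rw [fderiv_fun_sub (hf.differentiable one_ne_zero x) (hg.differentiable one_ne_zero x)]
  rfl

lemma pd_shift (f : E → ℝ) (j : Fin 3) (h x : E) :
    pd j (fun z => f (z - h)) x = pd j f (x - h) := by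
  unfold pd
  simp only [sub_eq_add_neg]
  rw [fderiv_comp_add_right]

/-- second differences -/
lemma second (α H : ℝ) (f : E → ℝ) (hf : Hol α H f) (z h : E) :
    |2 * f z - f (z + h) - f (z - h)| ≤ 3 * (H * ‖h‖ ^ α) * ‖h‖ := by
  have h1 : ContDiff ℝ 1 (fun z => f z - f (z - h)) :=
    hf.1.sub (hf.1.comp (contDiff_id.sub contDiff_const))
  have h2 := mvt (fun z => f z - f (z - h)) h1 z (z + h) (H * ‖h‖ ^ α) (by
    intro y _ j
    rw [pd_sub f (fun z => f (z - h)) hf.1 (hf.1.comp (contDiff_id.sub contDiff_const)),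
      pd_shift]
    have := hf.2 y (y - h) j
    rw [sub_sub_cancel] at this
    exact this)
  simp only [add_sub_cancel_right, add_sub_cancel_left] at h2
  rw [← abs_neg]
  refine le_trans (le_of_eq ?_) h2
  congr 1
  ring

lemma grad_bound (α H : ℝ) (f : E → ℝ) (hf : Hol α H f) (h0 : Jet0 f) (z : E) (j : Fin 3) :
    |pd j f z| ≤ H * ‖z‖ ^ α := by
  have := hf.2 z 0 j
  rw [h0.2 j, sub_zero, sub_zero] at this
  exact this

lemma first (α H : ℝ) (hα : 0 ≤ α) (hH : 0 ≤ H) (f : E → ℝ) (hf : Hol α H f) (h0 : Jet0 f)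
    (z h : E) : |f (z + h) - f z| ≤ 3 * (H * (‖z‖ + ‖h‖) ^ α) * ‖h‖ := by
  have h2 := mvt f hf.1 z (z + h) (H * (‖z‖ + ‖h‖) ^ α) (by
    intro y hy j
    refine (grad_bound α H f hf h0 y j).trans ?_
    obtain ⟨s, t, hs, ht, hst, rfl⟩ := hy
    have e1 : s • z + t • (z + h) = z + t • h := by
      have : s = 1 - t := by linarith
      rw [this]; module
    rw [e1]
    have e2 : ‖z + t • h‖ ≤ ‖z‖ + ‖h‖ := by
      refine (norm_add_le _ _).trans ?_
      rw [norm_smul, Real.norm_of_nonneg ht]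
      have : t * ‖h‖ ≤ 1 * ‖h‖ := mul_le_mul_of_nonneg_right (by linarith) (norm_nonneg _)
      linarith
    exact mul_le_mul_of_nonneg_left (Real.rpow_le_rpow (norm_nonneg _) e2 hα) hH)
  rwa [add_sub_cancel_left] at h2

lemma growth (α H : ℝ) (hα : 0 ≤ α) (hH : 0 ≤ H) (f : E → ℝ) (hf : Hol α H f) (h0 : Jet0 f)
    (z : E) : |f z| ≤ 3 * (H * ‖z‖ ^ α) * ‖z‖ := by
  have h2 := first α H hα hH f hf h0 0 z
  rwa [zero_add, h0.1, sub_zero, norm_zero, zero_add] at h2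

/-- combinations of the composition with a linear map -/
lemma comb (α H : ℝ) (hα : 0 ≤ α) (hH : 0 ≤ H) (R : Fin 3 → E → ℝ) (hR : ∀ i, Hol α H (R i))
    (h0 : ∀ i, Jet0 (R i)) (J : E →L[ℝ] E) (m : E) :
    Hol α (9 * ‖m‖ * (‖J‖ * ‖J‖ ^ α) * H) (fun Y => ∑ i, m i * R i (J Y)) ∧
      Jet0 (fun Y => ∑ i, m i * R i (J Y)) := by
  have hd : ∀ i, Differentiable ℝ (R i) := fun i => (hR i).1.differentiable one_ne_zero
  have hpd : ∀ j Y, pd j (fun Y => ∑ i, m i * R i (J Y)) Y =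
      ∑ i, m i * fderiv ℝ (R i) (J Y) (J (Pi.single j 1)) := by
    intro j Y
    have h1 : ∀ i, HasFDerivAt (fun Y => m i * R i (J Y))
        (m i • (fderiv ℝ (R i) (J Y)).comp J) Y := fun i =>
      ((hd i (J Y)).hasFDerivAt.comp Y J.hasFDerivAt).const_mul (m i)
    have h2 := HasFDerivAt.fun_sum (u := Finset.univ) (fun i _ => h1 i)
    unfold pd
    rw [h2.fderiv]
    simp
  refine ⟨⟨?_, ?_⟩, ?_, ?_⟩
  · exact ContDiff.sum fun i _ => contDiff_const.mul ((hR i).1.comp J.contDiff)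
  · intro x y j
    rw [hpd, hpd, ← Finset.sum_sub_distrib]
    refine (Finset.abs_sum_le_sum_abs _ _).trans ?_
    have h1 : ∀ i ∈ (Finset.univ : Finset (Fin 3)),
        |m i * fderiv ℝ (R i) (J x) (J (Pi.single j 1)) -
          m i * fderiv ℝ (R i) (J y) (J (Pi.single j 1))| ≤
        3 * ‖m‖ * (‖J‖ * ‖J‖ ^ α) * H * ‖x - y‖ ^ α := by
      intro i _
      rw [← mul_sub, abs_mul]
      have h2 := clm_bound (fderiv ℝ (R i) (J x) - fderiv ℝ (R i) (J y)) (H * ‖J x - J y‖ ^ α)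
        (fun l => (hR i).2 (J x) (J y) l) (J (Pi.single j 1))
      have h3 : ‖J (Pi.single j (1 : ℝ))‖ ≤ ‖J‖ := by
        have := J.le_opNorm (Pi.single j (1 : ℝ))
        rwa [Pi.norm_single, norm_one, mul_one] at this
      have h4 : ‖J x - J y‖ ^ α ≤ ‖J‖ ^ α * ‖x - y‖ ^ α := by
        rw [← map_sub, ← Real.mul_rpow (norm_nonneg _) (norm_nonneg _)]
        exact Real.rpow_le_rpow (norm_nonneg _) (J.le_opNorm _) hα
      have h5 : 0 ≤ ‖x - y‖ ^ α := Real.rpow_nonneg (norm_nonneg _) _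
      have h6 : 0 ≤ ‖J‖ ^ α := Real.rpow_nonneg (norm_nonneg _) _
      calc |m i| * |(fderiv ℝ (R i) (J x)) (J (Pi.single j 1)) -
            (fderiv ℝ (R i) (J y)) (J (Pi.single j 1))|
          ≤ ‖m‖ * (3 * (H * (‖J‖ ^ α * ‖x - y‖ ^ α)) * ‖J‖) := by
            refine mul_le_mul (norm_le_pi_norm m i) (h2.trans ?_) (abs_nonneg _) (norm_nonneg _)
            refine mul_le_mul ?_ h3 (norm_nonneg _) (by positivity)
            exact mul_le_mul_of_nonneg_left (mul_le_mul_of_nonneg_left h4 hH) (by norm_num)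
        _ = _ := by ring
    refine (Finset.sum_le_sum h1).trans (le_of_eq ?_)
    simp
    ring
  · simp only [map_zero]
    exact Finset.sum_eq_zero fun i _ => by rw [(h0 i).1, mul_zero]
  · intro j
    rw [hpd]
    refine Finset.sum_eq_zero fun i _ => ?_
    rw [map_zero, clm_sum]
    have : ∑ l, J (Pi.single j 1) l * (fderiv ℝ (R i) 0) (Pi.single l 1) = 0 :=
      Finset.sum_eq_zero fun l _ => by
        have := (h0 i).2 l
        unfold pd at this
        rw [this, mul_zero]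
    rw [this, mul_zero]

/-! ### rescaling -/

/-- rescaled remainder -/
noncomputable def RR (α : ℝ) (r : E → ℝ) (x : E) (lam : ℝ) (Z : E) : ℝ :=
  lam ^ (1 + α) * (r (x + lam⁻¹ • Z) - r x - lam⁻¹ * fderiv ℝ r x Z)

lemma RR_pd (α : ℝ) (r : E → ℝ) (x : E) (lam : ℝ) (hr : ContDiff ℝ 1 r) (Z : E) (j : Fin 3) :
    pd j (RR α r x lam) Z = lam ^ (1 + α) * (lam⁻¹ * (pd j r (x + lam⁻¹ • Z) - pd j r x)) := by
  have hd : Differentiable ℝ r := hr.differentiable one_ne_zero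
  have h1 : HasFDerivAt (fun Z : E => x + lam⁻¹ • Z) (lam⁻¹ • ContinuousLinearMap.id ℝ E) Z :=
    ((hasFDerivAt_id Z).const_smul lam⁻¹).const_add x
  have h2 : HasFDerivAt (fun Z : E => r (x + lam⁻¹ • Z))
      ((fderiv ℝ r (x + lam⁻¹ • Z)).comp (lam⁻¹ • ContinuousLinearMap.id ℝ E)) Z :=
    (hd (x + lam⁻¹ • Z)).hasFDerivAt.comp Z h1
  have h3 : HasFDerivAt (fun Z : E => lam⁻¹ * fderiv ℝ r x Z) (lam⁻¹ • fderiv ℝ r x) Z :=
    (fderiv ℝ r x).hasFDerivAt.const_mul lam⁻¹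
  have h4 : HasFDerivAt (RR α r x lam) (lam ^ (1 + α) • ((fderiv ℝ r (x + lam⁻¹ • Z)).comp
      (lam⁻¹ • ContinuousLinearMap.id ℝ E) - lam⁻¹ • fderiv ℝ r x)) Z :=
    ((h2.sub_const (r x)).sub h3).const_mul (lam ^ (1 + α))
  unfold pd
  rw [h4.fderiv]
  show lam ^ (1 + α) * (fderiv ℝ r (x + lam⁻¹ • Z) (lam⁻¹ • (Pi.single j (1 : ℝ) : E)) -
    lam⁻¹ * fderiv ℝ r x (Pi.single j 1)) = _
  rw [map_smul, smul_eq_mul]
  ring

lemma RR_hol (α ε : ℝ) (r : E → ℝ) (x : E) (lam : ℝ) (hlam : 0 < lam)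
    (hr : Hol α ε r) : Hol α ε (RR α r x lam) ∧ Jet0 (RR α r x lam) := by
  refine ⟨⟨?_, ?_⟩, ?_, ?_⟩
  · have e0 : ContDiff ℝ 1 (fun Z : E => lam⁻¹ • Z) := contDiff_const_smul lam⁻¹
    have e1 : ContDiff ℝ 1 (fun Z : E => x + lam⁻¹ • Z) := contDiff_const.add e0
    have e2 : ContDiff ℝ 1 (fun Z : E => r (x + lam⁻¹ • Z)) := hr.1.comp e1
    exact contDiff_const.mul ((e2.sub contDiff_const).sub
      (contDiff_const.mul (fderiv ℝ r x).contDiff))
  · intro y z j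
    rw [RR_pd α r x lam hr.1, RR_pd α r x lam hr.1, ← mul_sub, ← mul_sub, sub_sub_sub_cancel_right,
      abs_mul, abs_mul, abs_of_pos (Real.rpow_pos_of_pos hlam _), abs_of_pos (inv_pos.2 hlam)]
    have h1 := hr.2 (x + lam⁻¹ • y) (x + lam⁻¹ • z) j
    rw [add_sub_add_left_eq_sub, ← smul_sub, norm_smul, Real.norm_of_nonneg (inv_pos.2 hlam).le,
      Real.mul_rpow (inv_pos.2 hlam).le (norm_nonneg _), Real.inv_rpow hlam.le] at h1
    have h2 : lam ^ (1 + α) = lam * lam ^ α := by rw [Real.rpow_add hlam, Real.rpow_one]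
    rw [h2]
    have h3 : 0 < lam ^ α := Real.rpow_pos_of_pos hlam _
    calc lam * lam ^ α * (lam⁻¹ * |pd j r (x + lam⁻¹ • y) - pd j r (x + lam⁻¹ • z)|)
        ≤ lam * lam ^ α * (lam⁻¹ * (ε * ((lam ^ α)⁻¹ * ‖y - z‖ ^ α))) := by
          refine mul_le_mul_of_nonneg_left ?_ (by positivity)
          exact mul_le_mul_of_nonneg_left h1 (by positivity)
      _ = ε * ‖y - z‖ ^ α := by field_simp
  · unfold RR
    simp
  · intro j
    rw [RR_pd α r x lam hr.1]
    simp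

/-! ### the main integral -/

lemma int_ball (A0 S ρ : ℝ) (t G : E → ℝ) (hρ : 0 < ρ) (ht : Integrable t)
    (hG : ∀ Y, |G Y| ≤ A0 * |t Y| + (Metric.closedBall (0 : E) ρ).indicator (fun _ => S) Y) :
    |∫ Y, G Y| ≤ A0 * (∫ Y, |t Y|) + S * (2 * ρ) ^ 3 := by
  have hI : Integrable ((Metric.closedBall (0 : E) ρ).indicator (fun _ => S) : E → ℝ) := by
    rw [integrable_indicator_iff Metric.isClosed_closedBall.measurableSet]
    refine integrableOn_const ?_
    exact (measure_closedBall_lt_top).ne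
  have h0 : Integrable (fun Y => A0 * |t Y| +
      (Metric.closedBall (0 : E) ρ).indicator (fun _ => S) Y) := (ht.abs.const_mul A0).add hI
  have h1 := norm_integral_le_of_norm_le (f := G) h0 (Filter.Eventually.of_forall hG)
  refine h1.trans (le_of_eq ?_)
  rw [integral_add (ht.abs.const_mul A0) hI, integral_const_mul,
    integral_indicator_const _ Metric.isClosed_closedBall.measurableSet]
  congr 1
  rw [Measure.real, Real.volume_pi_closedBall _ hρ.le, ENNReal.toReal_ofReal (by positivity)]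
  simp
  ring

lemma bump_facts (η : E → ℝ) (hη : Bump η) : ∃ L : ℝ, 0 ≤ L ∧
    (∀ x y, |η x - η y| ≤ L * ‖x - y‖) ∧ Hol 1 L η := by
  obtain ⟨C, hC⟩ := hη.1.lipschitzWith_of_hasCompactSupport hη.2.1 (by norm_num)
  have h1 : ∀ j : Fin 3, ∃ D : NNReal, LipschitzWith D (fun x => fderiv ℝ η x (Pi.single j (1 : ℝ))) := by
    intro j
    have h2 : ContDiff ℝ 3 (fun x => fderiv ℝ η x (Pi.single j (1 : ℝ))) :=
      (hη.1.fderiv_right (m := 3) (by norm_num)).clm_apply contDiff_const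
    have h3 : HasCompactSupport (fun x => fderiv ℝ η x (Pi.single j (1 : ℝ))) :=
      hη.2.1.fderiv_apply ℝ _
    exact h2.lipschitzWith_of_hasCompactSupport h3 (by norm_num)
  choose D hD using h1
  refine ⟨C + ∑ j, (D j : ℝ), by positivity, ?_, hη.1.of_le (by norm_num), ?_⟩
  · intro x y
    have h4 := hC.dist_le_mul x y
    rw [dist_eq_norm, dist_eq_norm, Real.norm_eq_abs] at h4
    refine h4.trans (mul_le_mul_of_nonneg_right ?_ (norm_nonneg _))
    have : (0 : ℝ) ≤ ∑ j, (D j : ℝ) := by positivity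
    linarith
  · intro x y j
    have h4 := (hD j).dist_le_mul x y
    rw [dist_eq_norm, dist_eq_norm, Real.norm_eq_abs] at h4
    rw [Real.rpow_one]
    refine h4.trans (mul_le_mul_of_nonneg_right ?_ (norm_nonneg _))
    have h5 : (D j : ℝ) ≤ ∑ j, (D j : ℝ) :=
      Finset.single_le_sum (f := fun j => (D j : ℝ)) (fun i _ => (D i).2) (Finset.mem_univ j)
    have h6 : (0 : ℝ) ≤ C := C.2
    linarith

lemma th_int (η : E → ℝ) (hη : Bump η) (κ : E) (δ : ℝ) (hδ : 0 < δ)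
    (hth : Integrable (th η κ δ)) : δ ^ 3 * ∫ Y, |th η κ δ Y| ≤ ∫ Y, |η Y| := by
  have hi : Integrable η := hη.1.continuous.integrable_of_hasCompactSupport hη.2.1
  have h1 : Integrable (fun Y : E => η (δ • Y)) := hi.comp_smul hδ.ne'
  have h2 : Integrable (fun Y : E => η (δ • (Y + Real.pi • κ))) := h1.comp_add_right (Real.pi • κ)
  have h3 : ∫ Y, |th η κ δ Y| ≤ ∫ Y, ((|η (δ • Y)| + |η (δ • (Y + Real.pi • κ))|) / 2) := by
    refine integral_mono hth.abs ((h1.abs.add h2.abs).div_const 2) ?_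
    intro Y
    show |(η (δ • Y) + η (δ • (Y + Real.pi • κ))) / 2| ≤ _
    rw [abs_div, abs_two]
    exact div_le_div_of_nonneg_right (abs_add_le _ _) (by norm_num)
  have h4 : ∫ Y : E, |η (δ • Y)| = (δ ^ 3)⁻¹ * ∫ Y, |η Y| := by
    have := Measure.integral_comp_smul (μ := (volume : Measure E)) (fun Y => |η Y|) δ
    rw [this]
    simp [abs_of_pos hδ]
  have h5 : ∫ Y : E, |η (δ • (Y + Real.pi • κ))| = ∫ Y : E, |η (δ • Y)| :=
    integral_add_right_eq_self (fun Y : E => |η (δ • Y)|) (Real.pi • κ)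
  rw [integral_div, integral_add h1.abs h2.abs, h5, h4] at h3
  calc δ ^ 3 * ∫ Y, |th η κ δ Y| ≤ δ ^ 3 * (((δ ^ 3)⁻¹ * ∫ Y, |η Y|) + ((δ ^ 3)⁻¹ * ∫ Y, |η Y|)) / 2 := by
        rw [mul_div_assoc]
        exact mul_le_mul_of_nonneg_left h3 (by positivity)
    _ = ∫ Y, |η Y| := by field_simp; ring

lemma main_part (α : ℝ) (hα : 0 < α) (hα1 : α < 1) (η : E → ℝ) (hη : Bump η) (κ h' : E)
    (hκ : κ ⬝ᵥ h' = Real.pi) (R0 : ℝ)
    (hR : ∀ δ ∈ Ioc (0 : ℝ) 1, ∀ Y : E, R0 / δ ≤ ‖Y‖ → th η κ δ Y = 0)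
    (hth : ∀ δ ∈ Ioc (0 : ℝ) 1, Continuous (th η κ δ) ∧ HasCompactSupport (th η κ δ)) :
    ∃ C : ℝ, 0 ≤ C ∧ ∀ δ ∈ Ioc (0 : ℝ) 1, ∀ (H A0 : ℝ) (W : E → ℝ) (τ : ℝ), 0 ≤ H → 0 ≤ A0 →
      Hol α H W → Jet0 W → (∀ Y, |2 * W Y - W (Y + h') - W (Y - h')| ≤ A0) →
      |δ ^ 3 * ∫ Y, th η κ δ Y * Real.cos (κ ⬝ᵥ Y + τ) * W Y| ≤
        (1 / 4) * A0 * (∫ Y, |η Y|) + C * H * δ ^ (1 - α) := by
  obtain ⟨L, hL0, hL1, hL2⟩ := bump_facts η hη
  obtain ⟨P, hP⟩ : ∃ P : ℝ, P = max R0 0 + ‖h'‖ + 1 := ⟨_, rfl⟩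
  have hPh : ‖h'‖ ≤ P := by rw [hP]; have := le_max_right R0 0; linarith
  have hPR : R0 + ‖h'‖ ≤ P := by rw [hP]; have := le_max_left R0 0; linarith
  have hP0 : 0 < P := by
    rw [hP]; have := le_max_right R0 0; have := norm_nonneg h'; linarith
  refine ⟨(1 / 4) * (8 * P ^ 3 * (6 * (2 * P) ^ α * L * ‖h'‖ ^ 2 + 9 * P ^ α * P * L * ‖h'‖ ^ 2)),
    by positivity, ?_⟩
  intro δ hδ H A0 W τ hH hA0 hW hJ hA
  obtain ⟨hδ0, hδ1⟩ := hδ
  obtain ⟨htc, hts⟩ := hth δ ⟨hδ0, hδ1⟩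
  have hti : Integrable (th η κ δ) := htc.integrable_of_hasCompactSupport hts
  obtain ⟨F, hF⟩ : ∃ F : E → ℝ, F = fun Y => th η κ δ Y * W Y := ⟨_, rfl⟩
  have hWc : Continuous W := hW.1.continuous
  have hcc : Continuous (fun Y : E => Real.cos (κ ⬝ᵥ Y + τ)) := by
    refine Real.continuous_cos.comp (Continuous.add ?_ continuous_const)
    unfold dotProduct
    fun_prop
  -- the shifted integrals
  have hFc : Continuous F := by rw [hF]; exact htc.mul hWc
  have hFs : HasCompactSupport F := by rw [hF]; exact hts.mul_right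
  have hshift : ∀ k : E, Integrable (fun Y => F (Y + k) * Real.cos (κ ⬝ᵥ Y + τ)) := by
    intro k
    refine Continuous.integrable_of_hasCompactSupport ((hFc.comp (continuous_id.add
      continuous_const)).mul hcc) ?_
    exact HasCompactSupport.mul_right (hFs.comp_homeomorph (Homeomorph.addRight k))
  obtain ⟨I, hI⟩ : ∃ I : ℝ, I = ∫ Y, F Y * Real.cos (κ ⬝ᵥ Y + τ) := ⟨_, rfl⟩
  have hI0 : ∫ Y, th η κ δ Y * Real.cos (κ ⬝ᵥ Y + τ) * W Y = I := by
    rw [hI, hF]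
    congr 1
    ext Y
    ring
  have hI1 : ∫ Y, F (Y + h') * Real.cos (κ ⬝ᵥ Y + τ) = -I := by
    have e1 := integral_add_right_eq_self (fun Y : E => F Y * Real.cos (κ ⬝ᵥ Y + τ)) h'
      (μ := volume)
    rw [← hI] at e1
    rw [← e1, ← integral_neg]
    congr 1
    ext Y
    rw [dotProduct_add, hκ]
    have : κ ⬝ᵥ Y + Real.pi + τ = (κ ⬝ᵥ Y + τ) + Real.pi := by ring
    rw [this, Real.cos_add_pi]
    ring
  have hI2 : ∫ Y, F (Y - h') * Real.cos (κ ⬝ᵥ Y + τ) = -I := by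
    have e1 := integral_sub_right_eq_self (fun Y : E => F Y * Real.cos (κ ⬝ᵥ Y + τ)) h'
      (μ := volume)
    rw [← hI] at e1
    rw [← e1, ← integral_neg]
    congr 1
    ext Y
    rw [dotProduct_sub, hκ]
    have : κ ⬝ᵥ Y - Real.pi + τ = (κ ⬝ᵥ Y + τ) - Real.pi := by ring
    rw [this, Real.cos_sub_pi]
    ring
  have hs0 : Integrable (fun Y => F Y * Real.cos (κ ⬝ᵥ Y + τ)) := by
    have := hshift 0
    simpa using this
  have hs1 := hshift h'
  have hs2 : Integrable (fun Y => F (Y - h') * Real.cos (κ ⬝ᵥ Y + τ)) := by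
    have := hshift (-h')
    simpa [sub_eq_add_neg] using this
  have hI4 : 4 * I = ∫ Y, (2 * F Y - F (Y + h') - F (Y - h')) * Real.cos (κ ⬝ᵥ Y + τ) := by
    have e1 : (fun Y => (2 * F Y - F (Y + h') - F (Y - h')) * Real.cos (κ ⬝ᵥ Y + τ)) =
        fun Y => 2 * (F Y * Real.cos (κ ⬝ᵥ Y + τ)) - F (Y + h') * Real.cos (κ ⬝ᵥ Y + τ) -
          F (Y - h') * Real.cos (κ ⬝ᵥ Y + τ) := by
      ext Y; ring
    have hs3 : Integrable (fun Y => 2 * (F Y * Real.cos (κ ⬝ᵥ Y + τ)) -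
        F (Y + h') * Real.cos (κ ⬝ᵥ Y + τ)) := (hs0.const_mul 2).sub hs1
    rw [e1, integral_sub hs3 hs2, integral_sub (hs0.const_mul 2) hs1,
      integral_const_mul, hI1, hI2, ← hI]
    ring
  -- the pointwise bound
  obtain ⟨ρ, hρ⟩ : ∃ ρ : ℝ, ρ = P / δ := ⟨_, rfl⟩
  have hρ0 : 0 < ρ := by rw [hρ]; positivity
  have hPρ : P ≤ ρ := by
    rw [hρ, le_div_iff₀ hδ0]
    nlinarith
  have hcos : ∀ Y : E, |Real.cos (κ ⬝ᵥ Y + τ)| ≤ 1 := fun Y => Real.abs_cos_le_one _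
  obtain ⟨S, hS⟩ : ∃ S : ℝ, S = 2 * (3 * (H * (2 * ρ) ^ α) * ‖h'‖ * (L * (δ * ‖h'‖))) +
    3 * (H * ρ ^ α) * ρ * (3 * L * (δ * ‖h'‖) ^ 2) := ⟨_, rfl⟩
  have hS0 : 0 ≤ S := by rw [hS]; positivity
  have hlip : ∀ Y k : E, |th η κ δ Y - th η κ δ (Y + k)| ≤ L * (δ * ‖k‖) := by
    intro Y k
    show |(η (δ • Y) + η (δ • (Y + Real.pi • κ))) / 2 -
      (η (δ • (Y + k)) + η (δ • (Y + k + Real.pi • κ))) / 2| ≤ _
    have e1 := hL1 (δ • Y) (δ • (Y + k))
    have e2 := hL1 (δ • (Y + Real.pi • κ)) (δ • (Y + k + Real.pi • κ))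
    have e3 : δ • Y - δ • (Y + k) = -(δ • k) := by module
    have e4 : δ • (Y + Real.pi • κ) - δ • (Y + k + Real.pi • κ) = -(δ • k) := by module
    rw [e3, norm_neg, norm_smul, Real.norm_of_nonneg hδ0.le] at e1
    rw [e4, norm_neg, norm_smul, Real.norm_of_nonneg hδ0.le] at e2
    rw [abs_le] at e1 e2 ⊢
    constructor <;> linarith [e1.1, e1.2, e2.1, e2.2]
  have hsec : ∀ Y : E, |2 * th η κ δ Y - th η κ δ (Y + h') - th η κ δ (Y - h')| ≤
      3 * L * (δ * ‖h'‖) ^ 2 := by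
    intro Y
    show |2 * ((η (δ • Y) + η (δ • (Y + Real.pi • κ))) / 2) -
      (η (δ • (Y + h')) + η (δ • (Y + h' + Real.pi • κ))) / 2 -
      (η (δ • (Y - h')) + η (δ • (Y - h' + Real.pi • κ))) / 2| ≤ _
    have e1 := second 1 L η hL2 (δ • Y) (δ • h')
    have e2 := second 1 L η hL2 (δ • (Y + Real.pi • κ)) (δ • h')
    rw [norm_smul, Real.norm_of_nonneg hδ0.le, Real.rpow_one] at e1 e2
    have e3 : δ • Y + δ • h' = δ • (Y + h') := by module
    have e4 : δ • Y - δ • h' = δ • (Y - h') := by module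
    have e5 : δ • (Y + Real.pi • κ) + δ • h' = δ • (Y + h' + Real.pi • κ) := by module
    have e6 : δ • (Y + Real.pi • κ) - δ • h' = δ • (Y - h' + Real.pi • κ) := by module
    rw [e3, e4] at e1
    rw [e5, e6] at e2
    rw [abs_le] at e1 e2 ⊢
    constructor <;> nlinarith [e1.1, e1.2, e2.1, e2.2]
  have hpt : ∀ Y, |(2 * F Y - F (Y + h') - F (Y - h')) * Real.cos (κ ⬝ᵥ Y + τ)| ≤
      A0 * |th η κ δ Y| + (Metric.closedBall (0 : E) ρ).indicator (fun _ => S) Y := by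
    intro Y
    rw [abs_mul]
    have e0 : |2 * F Y - F (Y + h') - F (Y - h')| * |Real.cos (κ ⬝ᵥ Y + τ)| ≤
        |2 * F Y - F (Y + h') - F (Y - h')| * 1 :=
      mul_le_mul_of_nonneg_left (hcos Y) (abs_nonneg _)
    refine e0.trans ?_
    rw [mul_one]
    by_cases hY : ‖Y‖ ≤ ρ
    · rw [indicator_of_mem (by simpa using hY)]
      have e1 : 2 * F Y - F (Y + h') - F (Y - h') =
          (2 * W Y - W (Y + h') - W (Y - h')) * th η κ δ Y +
          ((W (Y + h') - W Y) * (th η κ δ Y - th η κ δ (Y + h')) +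
          (W (Y - h') - W Y) * (th η κ δ Y - th η κ δ (Y - h')) +
          W Y * (2 * th η κ δ Y - th η κ δ (Y + h') - th η κ δ (Y - h'))) := by
        rw [hF]; ring
      rw [e1]
      have hWp : ∀ k : E, ‖k‖ = ‖h'‖ → |W (Y + k) - W Y| ≤ 3 * (H * (2 * ρ) ^ α) * ‖h'‖ := by
        intro k hk
        have e2 := first α H hα.le hH W hW hJ Y k
        rw [hk] at e2
        refine e2.trans ?_
        have e3 : (‖Y‖ + ‖h'‖) ^ α ≤ (2 * ρ) ^ α :=
          Real.rpow_le_rpow (by positivity) (by linarith) hα.le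
        refine mul_le_mul_of_nonneg_right ?_ (norm_nonneg _)
        exact mul_le_mul_of_nonneg_left (mul_le_mul_of_nonneg_left e3 hH) (by norm_num)
      have f1 := hWp h' rfl
      have f2 := hWp (-h') (norm_neg _)
      rw [← sub_eq_add_neg] at f2
      have f3 := hlip Y h'
      have f4 := hlip Y (-h')
      rw [← sub_eq_add_neg, norm_neg] at f4
      have f5 : |W Y| ≤ 3 * (H * ρ ^ α) * ρ := by
        refine (growth α H hα.le hH W hW hJ Y).trans ?_
        have e3 : ‖Y‖ ^ α ≤ ρ ^ α := Real.rpow_le_rpow (norm_nonneg _) hY hα.le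
        refine mul_le_mul ?_ hY (norm_nonneg _) (by positivity)
        exact mul_le_mul_of_nonneg_left (mul_le_mul_of_nonneg_left e3 hH) (by norm_num)
      have f6 := hsec Y
      have g1 : |(2 * W Y - W (Y + h') - W (Y - h')) * th η κ δ Y| ≤ A0 * |th η κ δ Y| := by
        rw [abs_mul]
        exact mul_le_mul_of_nonneg_right (hA Y) (abs_nonneg _)
      have g2 : |(W (Y + h') - W Y) * (th η κ δ Y - th η κ δ (Y + h'))| ≤
          3 * (H * (2 * ρ) ^ α) * ‖h'‖ * (L * (δ * ‖h'‖)) := by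
        rw [abs_mul]
        exact mul_le_mul f1 f3 (abs_nonneg _) (by positivity)
      have g3 : |(W (Y - h') - W Y) * (th η κ δ Y - th η κ δ (Y - h'))| ≤
          3 * (H * (2 * ρ) ^ α) * ‖h'‖ * (L * (δ * ‖h'‖)) := by
        rw [abs_mul]
        exact mul_le_mul f2 f4 (abs_nonneg _) (by positivity)
      have g4 : |W Y * (2 * th η κ δ Y - th η κ δ (Y + h') - th η κ δ (Y - h'))| ≤
          3 * (H * ρ ^ α) * ρ * (3 * L * (δ * ‖h'‖) ^ 2) := by
        rw [abs_mul]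
        exact mul_le_mul f5 f6 (abs_nonneg _) (by positivity)
      refine (abs_add_le _ _).trans (add_le_add g1 ?_)
      refine (abs_add_le _ _).trans ?_
      have g5 := abs_add_le ((W (Y + h') - W Y) * (th η κ δ Y - th η κ δ (Y + h')))
        ((W (Y - h') - W Y) * (th η κ δ Y - th η κ δ (Y - h')))
      rw [hS]
      linarith
    · push Not at hY
      rw [indicator_of_notMem (by simpa using hY)]
      have e2 : ∀ k : E, ‖k‖ ≤ ‖h'‖ → th η κ δ (Y + k) = 0 := by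
        intro k hk
        apply hR δ ⟨hδ0, hδ1⟩
        have e3 : ‖Y‖ - ‖k‖ ≤ ‖Y + k‖ := by
          have := norm_sub_norm_le Y (-k)
          rwa [norm_neg, sub_neg_eq_add] at this
        have e4 : R0 / δ + ‖h'‖ ≤ ρ := by
          rw [hρ, ← sub_nonneg]
          have : P / δ - (R0 / δ + ‖h'‖) = (P - R0 - δ * ‖h'‖) / δ := by field_simp; ring
          rw [this]
          apply div_nonneg _ hδ0.le
          have := norm_nonneg h'
          nlinarith
        linarith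
      have e5 := e2 0 (by simp)
      have e6 := e2 h' le_rfl
      have e7 := e2 (-h') (by simp)
      rw [add_zero] at e5
      rw [← sub_eq_add_neg] at e7
      rw [hF]
      simp only [e5, e6, e7]
      simp
  have hfin := int_ball A0 S ρ (th η κ δ) _ hρ0 hti hpt
  rw [← hI4] at hfin
  have hth3 := th_int η hη κ δ hδ0 hti
  have hδρ : δ ^ 3 * (2 * ρ) ^ 3 = 8 * P ^ 3 := by rw [hρ]; field_simp; ring
  have hSval : S = H * δ ^ (1 - α) * (6 * (2 * P) ^ α * L * ‖h'‖ ^ 2 +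
      9 * P ^ α * P * L * ‖h'‖ ^ 2) := by
    have k1 : δ ^ (1 - α) = δ / δ ^ α := by rw [Real.rpow_sub hδ0, Real.rpow_one]
    have k2 : (2 * ρ) ^ α = (2 * P) ^ α / δ ^ α := by
      rw [hρ, ← mul_div_assoc, Real.div_rpow (by positivity) hδ0.le]
    have k3 : ρ ^ α = P ^ α / δ ^ α := by rw [hρ, Real.div_rpow hP0.le hδ0.le]
    have k4 : 0 < δ ^ α := Real.rpow_pos_of_pos hδ0 _
    rw [hS, k1, k2, k3, hρ]
    field_simp
    ring
  rw [hI0, abs_mul, abs_of_pos (by positivity : (0 : ℝ) < δ ^ 3)]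
  rw [abs_mul, abs_of_pos (by norm_num : (0 : ℝ) < 4)] at hfin
  have hη0 : 0 ≤ ∫ Y, |th η κ δ Y| := integral_nonneg fun _ => abs_nonneg _
  calc δ ^ 3 * |I| ≤ δ ^ 3 * ((A0 * (∫ Y, |th η κ δ Y|) + S * (2 * ρ) ^ 3) / 4) := by
        refine mul_le_mul_of_nonneg_left ?_ (by positivity)
        linarith
    _ = (1 / 4) * A0 * (δ ^ 3 * ∫ Y, |th η κ δ Y|) + (1 / 4) * S * (δ ^ 3 * (2 * ρ) ^ 3) := by
        ring
    _ ≤ (1 / 4) * A0 * (∫ Y, |η Y|) + (1 / 4) * S * (8 * P ^ 3) := by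
        rw [hδρ]
        have := mul_le_mul_of_nonneg_left hth3 (by positivity : 0 ≤ 1 / 4 * A0)
        linarith
    _ = _ := by rw [hSval]; ring

/-! ### the pairing -/

lemma aff_zero (T : E → E) (hc : Continuous T) (hs : HasCompactSupport T)
    (h0 : ∀ i, ∫ Y, T Y i = 0) (h1 : ∀ i j, ∫ Y : E, Y j * T Y i = 0) (J : E →L[ℝ] E)
    (l : E →L[ℝ] ℝ) (c : ℝ) (i : Fin 3) : ∫ Y, (c + l Y) * J (T Y) i = 0 := by
  have hi0 : ∀ a : Fin 3, Integrable (fun Y => T Y a) := fun a =>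
    ((continuous_apply a).comp hc).integrable_of_hasCompactSupport
      (hs.comp_left (g := fun v : E => v a) rfl)
  have hi1 : ∀ a j : Fin 3, Integrable (fun Y : E => Y j * T Y a) := fun a j =>
    ((continuous_apply j).mul ((continuous_apply a).comp hc)).integrable_of_hasCompactSupport
      (HasCompactSupport.mul_left (hs.comp_left (g := fun v : E => v a) rfl))
  have e1 : (fun Y => (c + l Y) * J (T Y) i) = fun Y => ∑ a, (J (Pi.single a (1 : ℝ)) i * c * T Y a +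
      ∑ j, J (Pi.single a (1 : ℝ)) i * l (Pi.single j (1 : ℝ)) * (Y j * T Y a)) := by
    ext Y
    have e2 : J (T Y) i = ∑ a, T Y a * J (Pi.single a (1 : ℝ)) i :=
      clm_sum ((ContinuousLinearMap.proj i : E →L[ℝ] ℝ).comp J) (T Y)
    rw [e2, clm_sum l Y, Finset.mul_sum]
    refine Finset.sum_congr rfl fun a _ => ?_
    rw [add_mul, Finset.sum_mul]
    congr 1
    · ring
    · refine Finset.sum_congr rfl fun j _ => ?_
      ring
  rw [e1, integral_finsetSum]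
  · refine Finset.sum_eq_zero fun a _ => ?_
    rw [integral_add, integral_const_mul, h0, integral_finsetSum]
    · rw [mul_zero, zero_add]
      refine Finset.sum_eq_zero fun j _ => ?_
      rw [integral_const_mul, h1, mul_zero]
    · exact fun j _ => (hi1 a j).const_mul _
    · exact (hi0 a).const_mul _
    · exact integrable_finsetSum _ fun j _ => (hi1 a j).const_mul _
  · exact fun a _ => ((hi0 a).const_mul _).add
      (integrable_finsetSum _ fun j _ => (hi1 a j).const_mul _)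

lemma le_nn (v : E) (i : Fin 3) : |v i| ≤ nn v := by
  unfold nn
  refine Real.abs_le_sqrt ?_
  simp only [dotProduct, Fin.sum_univ_three]
  fin_cases i
  · show v 0 ^ 2 ≤ _
    nlinarith [mul_self_nonneg (v 1), mul_self_nonneg (v 2)]
  · show v 1 ^ 2 ≤ _
    nlinarith [mul_self_nonneg (v 0), mul_self_nonneg (v 2)]
  · show v 2 ^ 2 ≤ _
    nlinarith [mul_self_nonneg (v 0), mul_self_nonneg (v 1)]

lemma norm_le_nn (v : E) : ‖v‖ ≤ nn v := by
  have h : 0 ≤ nn v := Real.sqrt_nonneg _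
  rw [pi_norm_le_iff_of_nonneg h]
  exact fun i => le_nn v i

lemma nn_smul (c : ℝ) (hc : 0 ≤ c) (v : E) : nn (c • v) = c * nn v := by
  unfold nn
  rw [smul_dotProduct, dotProduct_smul, smul_eq_mul, smul_eq_mul, ← mul_assoc,
    Real.sqrt_mul (mul_self_nonneg c), Real.sqrt_mul_self hc]

lemma nn_sq (v : E) : nn v ^ 2 = v ⬝ᵥ v := by
  unfold nn
  refine Real.sq_sqrt ?_
  simp only [dotProduct, Fin.sum_univ_three]
  nlinarith [mul_self_nonneg (v 0), mul_self_nonneg (v 1), mul_self_nonneg (v 2)]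

/-- weighted combination of the rescaled components -/
noncomputable def WW (α : ℝ) (r : E → E) (x : E) (lam : ℝ) (J : E →L[ℝ] E) (m : E) (Y : E) : ℝ :=
  ∑ i, m i * RR α (fun z => r z i) x lam (J Y)

lemma WW_hol (α ε : ℝ) (hα : 0 ≤ α) (hε : 0 ≤ ε) (r : E → E) (x : E) (lam : ℝ) (hlam : 0 < lam)
    (hr : ∀ i, Hol α ε (fun z => r z i)) (J : E →L[ℝ] E) (m : E) :
    Hol α (9 * ‖m‖ * (‖J‖ * ‖J‖ ^ α) * ε) (WW α r x lam J m) ∧ Jet0 (WW α r x lam J m) :=
  comb α ε hα hε (fun i => RR α (fun z => r z i) x lam)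
    (fun i => (RR_hol α ε _ x lam hlam (hr i)).1) (fun i => (RR_hol α ε _ x lam hlam (hr i)).2) J m

lemma pair_eq (α ε : ℝ) (hα : 0 ≤ α) (hε : 0 ≤ ε) (η : E → ℝ) (κ b : E) (J : E →L[ℝ] E)
    (δ τ : ℝ) (r : E → E) (x : E) (lam : ℝ) (hlam : 0 < lam)
    (hr : ∀ i, Hol α ε (fun z => r z i))
    (hTc : Continuous (Tf η κ δ τ b)) (hTs : HasCompactSupport (Tf η κ δ τ b))
    (h0 : ∀ i, ∫ Y, Tf η κ δ τ b Y i = 0) (h1 : ∀ i j, ∫ Y : E, Y j * Tf η κ δ τ b Y i = 0)
    (hthc : Continuous (th η κ δ)) (hths : HasCompactSupport (th η κ δ))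
    (hgc : ∀ j, Continuous (fun Y => gth η κ δ Y j))
    (hgs : ∀ j, HasCompactSupport (fun Y => gth η κ δ Y j))
    (hT : ∀ Y, Tf η κ δ τ b Y = (th η κ δ Y * Real.cos (κ ⬝ᵥ Y + τ)) • b -
        Real.sin (κ ⬝ᵥ Y + τ) • crossProduct (gth η κ δ Y) (crossProduct κ b)) :
    pair α η r x lam J κ δ τ b = δ ^ 3 * (∫ Y, th η κ δ Y * Real.cos (κ ⬝ᵥ Y + τ) *
        WW α r x lam J (J b) Y) - ∑ j, δ ^ 3 * (∫ Y, gth η κ δ Y j * Real.sin (κ ⬝ᵥ Y + τ) *
        WW α r x lam J (J (crossProduct (Pi.single j (1 : ℝ)) (crossProduct κ b))) Y) := by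
  have hlp : 0 < lam ^ (1 + α) := Real.rpow_pos_of_pos hlam _
  have hRc : ∀ i, Continuous (RR α (fun z => r z i) x lam) := fun i =>
    (RR_hol α ε _ x lam hlam (hr i)).1.1.continuous
  have hrc : ∀ i, Continuous (fun z => r z i) := fun i => (hr i).1.continuous
  have hJc : Continuous J := J.continuous
  have hJT : ∀ i, Continuous (fun Y => J (Tf η κ δ τ b Y) i) := fun i =>
    (continuous_apply i).comp (hJc.comp hTc)
  have hJTs : ∀ i, HasCompactSupport (fun Y => J (Tf η κ δ τ b Y) i) := fun i =>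
    hTs.comp_left (g := fun v : E => J v i) (by simp)
  have hWc : ∀ m, Continuous (WW α r x lam J m) := fun m =>
    (WW_hol α ε hα hε r x lam hlam hr J m).1.1.continuous
  have hdc : Continuous (fun Y : E => κ ⬝ᵥ Y + τ) := by
    unfold dotProduct
    fun_prop
  -- step 1
  have s1 : ∀ i, lam ^ (1 + α) * ∫ Y, r (x + lam⁻¹ • J Y) i * J (Tf η κ δ τ b Y) i =
      ∫ Y, RR α (fun z => r z i) x lam (J Y) * J (Tf η κ δ τ b Y) i := by
    intro i
    have e1 := aff_zero (Tf η κ δ τ b) hTc hTs h0 h1 J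
      (lam⁻¹ • ((fderiv ℝ (fun z => r z i) x).comp J)) (r x i) i
    have e2 : ∀ Y, r (x + lam⁻¹ • J Y) i * J (Tf η κ δ τ b Y) i =
        (lam ^ (1 + α))⁻¹ * (RR α (fun z => r z i) x lam (J Y) * J (Tf η κ δ τ b Y) i) +
        (r x i + (lam⁻¹ • ((fderiv ℝ (fun z => r z i) x).comp J)) Y) *
          J (Tf η κ δ τ b Y) i := by
      intro Y
      have : RR α (fun z => r z i) x lam (J Y) = lam ^ (1 + α) * (r (x + lam⁻¹ • J Y) i - r x i -
        lam⁻¹ * fderiv ℝ (fun z => r z i) x (J Y)) := rfl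
      rw [this]
      have e3 : (lam⁻¹ • ((fderiv ℝ (fun z => r z i) x).comp J)) Y =
        lam⁻¹ * fderiv ℝ (fun z => r z i) x (J Y) := rfl
      rw [e3]
      field_simp
      ring
    simp_rw [e2]
    rw [integral_add, e1, add_zero, integral_const_mul, ← mul_assoc,
      mul_inv_cancel₀ hlp.ne', one_mul]
    · exact (Continuous.integrable_of_hasCompactSupport (((hRc i).comp hJc).mul (hJT i))
        (HasCompactSupport.mul_left (hJTs i))).const_mul _
    · refine Continuous.integrable_of_hasCompactSupport ((continuous_const.add ?_).mul (hJT i))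
        (HasCompactSupport.mul_left (hJTs i))
      exact ContinuousLinearMap.continuous _
  have s2 : lam ^ (1 + α) * ∫ Y, r (x + lam⁻¹ • J Y) ⬝ᵥ J (Tf η κ δ τ b Y) =
      ∫ Y, ∑ i, RR α (fun z => r z i) x lam (J Y) * J (Tf η κ δ τ b Y) i := by
    unfold dotProduct
    rw [integral_finsetSum, integral_finsetSum, Finset.mul_sum]
    · exact Finset.sum_congr rfl fun i _ => s1 i
    · intro i _
      exact Continuous.integrable_of_hasCompactSupport (((hRc i).comp hJc).mul (hJT i))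
        (HasCompactSupport.mul_left (hJTs i))
    · intro i _
      refine Continuous.integrable_of_hasCompactSupport (Continuous.mul ?_ (hJT i))
        (HasCompactSupport.mul_left (hJTs i))
      have e5 : Continuous (fun Y : E => lam⁻¹ • J Y) := (continuous_const_smul lam⁻¹).comp hJc
      exact (hrc i).comp (continuous_const.add e5)
  have s3 : ∀ Y, ∑ i, RR α (fun z => r z i) x lam (J Y) * J (Tf η κ δ τ b Y) i =
      th η κ δ Y * Real.cos (κ ⬝ᵥ Y + τ) * WW α r x lam J (J b) Y -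
      ∑ j, gth η κ δ Y j * Real.sin (κ ⬝ᵥ Y + τ) *
        WW α r x lam J (J (crossProduct (Pi.single j (1 : ℝ)) (crossProduct κ b))) Y := by
    intro Y
    have e1 : crossProduct (gth η κ δ Y) (crossProduct κ b) =
        ∑ j, gth η κ δ Y j • crossProduct (Pi.single j (1 : ℝ)) (crossProduct κ b) := by
      conv_lhs => rw [vec_sum (gth η κ δ Y)]
      rw [map_sum, LinearMap.sum_apply]
      refine Finset.sum_congr rfl fun j _ => ?_
      rw [map_smul, LinearMap.smul_apply]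
    have e2 : ∀ i, J (Tf η κ δ τ b Y) i = th η κ δ Y * Real.cos (κ ⬝ᵥ Y + τ) * J b i -
        Real.sin (κ ⬝ᵥ Y + τ) * ∑ j, gth η κ δ Y j *
          J (crossProduct (Pi.single j (1 : ℝ)) (crossProduct κ b)) i := by
      intro i
      rw [hT Y, e1, map_sub, map_smul, map_smul, map_sum]
      simp only [Pi.sub_apply, Pi.smul_apply, Finset.sum_apply, map_smul, smul_eq_mul]
    simp_rw [e2]
    unfold WW
    simp only [Fin.sum_univ_three]
    ring
  unfold pair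
  rw [mul_assoc, s2]
  simp_rw [s3]
  rw [integral_sub, integral_finsetSum, mul_sub, Finset.mul_sum]
  · intro j _
    exact Continuous.integrable_of_hasCompactSupport (((hgc j).mul
      (Real.continuous_sin.comp hdc)).mul (hWc _))
      (HasCompactSupport.mul_right (HasCompactSupport.mul_right (hgs j)))
  · exact Continuous.integrable_of_hasCompactSupport ((hthc.mul
      (Real.continuous_cos.comp hdc)).mul (hWc _))
      (HasCompactSupport.mul_right (HasCompactSupport.mul_right hths))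
  · refine integrable_finsetSum _ fun j _ => ?_
    exact Continuous.integrable_of_hasCompactSupport (((hgc j).mul
      (Real.continuous_sin.comp hdc)).mul (hWc _))
      (HasCompactSupport.mul_right (HasCompactSupport.mul_right (hgs j)))

lemma hcs_scale (g : E → ℝ) (hg : HasCompactSupport g) (δ : ℝ) (hδ : 0 < δ) (q : E) :
    HasCompactSupport (fun Y => g (δ • (Y + q))) :=
  hg.comp_homeomorph ((Homeomorph.addRight q).trans (Homeomorph.smulOfNeZero δ hδ.ne'))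

/-- PB. -/
theorem thm (hOSC : G_OSC) (hT1A : G_T1A) (hT1B : G_T1B) (hCOF : G_COF) : G_PB := by
  intro α η hα hα1 hη
  have hη0 : 0 ≤ ∫ Y, |η Y| := integral_nonneg fun _ => abs_nonneg _
  refine ⟨36 * Real.pi ^ 2 * (∫ Y, |η Y|) + 1, by positivity, ?_⟩
  intro κ b J hκ hκb hJ ρ hρ
  obtain ⟨c1, -, c3, -, -, -, -, c8⟩ := hCOF J hJ
  obtain ⟨k, hk⟩ : ∃ k : E, k = cofv J κ := ⟨_, rfl⟩
  have hκ0 : κ ≠ 0 := by
    rintro rfl
    simp at hκ
  have hk0 : 0 < nn k := by rw [hk]; exact c8 κ hκ0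
  have hkk : nn k ^ 2 = k ⬝ᵥ k := nn_sq k
  obtain ⟨h, hh⟩ : ∃ h : E, h = (Real.pi / (k ⬝ᵥ k)) • k := ⟨_, rfl⟩
  obtain ⟨h', hh'⟩ : ∃ h' : E, h' = inv3 J h := ⟨_, rfl⟩
  have hJh : J h' = h := by rw [hh']; exact c3 h
  have hkk0 : 0 < k ⬝ᵥ k := by rw [← hkk]; positivity
  have hκh : κ ⬝ᵥ h' = Real.pi := by
    rw [← c1 κ h', hJh, hh, ← hk, dotProduct_smul, smul_eq_mul]
    field_simp
  have hnh : ‖h‖ ≤ Real.pi / nn k := by
    refine (norm_le_nn h).trans (le_of_eq ?_)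
    rw [hh, nn_smul _ (by positivity), ← hkk]
    field_simp
  have hnκ : ‖κ‖ ≤ 1 := by
    refine (norm_le_nn κ).trans (le_of_eq ?_)
    unfold nn
    rw [hκ, Real.sqrt_one]
  have hπκ : ‖Real.pi • κ‖ ≤ 4 := by
    rw [norm_smul, Real.norm_of_nonneg Real.pi_pos.le]
    have := Real.pi_le_four
    calc Real.pi * ‖κ‖ ≤ Real.pi * 1 := mul_le_mul_of_nonneg_left hnκ Real.pi_pos.le
      _ ≤ 4 := by linarith
  obtain ⟨⟨R0, hR0⟩, hT2⟩ := hT1A η κ hη hκ
  have hgpd : ∀ j : Fin 3, ContDiff ℝ 3 (fun Y => pd j η Y) ∧ HasCompactSupport (fun Y => pd j η Y) :=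
    fun j => ⟨(hη.1.fderiv_right (m := 3) (by norm_num)).clm_apply contDiff_const,
      hη.2.1.fderiv_apply ℝ _⟩
  obtain ⟨C1, hC10, hC1⟩ := main_part α hα hα1 η hη κ h' hκh R0
    (fun δ hδ Y hY => (hR0 δ hδ 0 0 Y hY).2.2.1)
    (fun δ hδ => ⟨(hT2 δ hδ 0).2.1.continuous, (hT2 δ hδ 0).2.2.1⟩)
  have hC2' : ∀ j : Fin 3, ∃ C : ℝ, 0 ≤ C ∧ ∀ (H : ℝ) (W : E → ℝ), 0 ≤ H → Hol α H W → Jet0 W →
      ∀ δ ∈ Ioc (0 : ℝ) 1, ∀ (τ : ℝ) (q : E), ‖q‖ ≤ 4 →
        |δ ^ 3 * ∫ Y, W Y * pd j η (δ • (Y + q)) * Real.cos (κ ⬝ᵥ Y + τ)| ≤ C * H := fun j =>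
    hOSC α (fun Y => pd j η Y) κ hα hα1 ((hgpd j).1.of_le (by norm_num)) (hgpd j).2 hκ
  choose C2 hC20 hC2 using hC2'
  obtain ⟨BJ, hBJ⟩ : ∃ BJ : ℝ, BJ = ‖J‖ * ‖J‖ ^ α := ⟨_, rfl⟩
  have hBJ0 : 0 ≤ BJ := by rw [hBJ]; positivity
  obtain ⟨mj, hmj⟩ : ∃ mj : Fin 3 → E, mj = fun j =>
    J (crossProduct (Pi.single j (1 : ℝ)) (crossProduct κ b)) := ⟨_, rfl⟩
  obtain ⟨K, hK⟩ : ∃ K : ℝ, K = C1 * (9 * ‖J b‖ * BJ) + ∑ j, C2 j * (9 * ‖mj j‖ * BJ) := ⟨_, rfl⟩
  have hK0 : 0 ≤ K := by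
    rw [hK]
    have : 0 ≤ ∑ j, C2 j * (9 * ‖mj j‖ * BJ) := Finset.sum_nonneg fun j _ => by
      have := hC20 j
      positivity
    positivity
  have h1α : 0 < 1 - α := by linarith
  refine ⟨(ρ / (K + 1)) ^ (1 / (1 - α)), by positivity, ?_⟩
  intro δ hδ hδδ ε r x lam τ hε0 hε1 hlam hr
  obtain ⟨hTa, hTb, hTc, hTd, hTe⟩ := hT2 δ hδ τ
  have hδ0 : 0 < δ := hδ.1
  have hgj : ∀ Y j, gth η κ δ Y j = δ / 2 * (pd j η (δ • Y) + pd j η (δ • (Y + Real.pi • κ))) := by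
    intro Y j
    rw [hTe.2 Y]
  have hgc : ∀ j, Continuous (fun Y => gth η κ δ Y j) := by
    intro j
    simp_rw [hgj]
    have e1 : Continuous (fun Y => pd j η Y) := (hgpd j).1.continuous
    exact continuous_const.mul ((e1.comp (continuous_const_smul δ)).add
      (e1.comp ((continuous_const_smul δ).comp (continuous_id.add continuous_const))))
  have hgs : ∀ j, HasCompactSupport (fun Y => gth η κ δ Y j) := by
    intro j
    exact hTc.fderiv_apply ℝ _
  obtain ⟨hB1, hB2, hB3⟩ := hT1B η κ hη hκ δ hδ τ b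
  rw [pair_eq α ε hα.le hε0 η κ b J δ τ r x lam hlam hr (hTa b).1.continuous (hTa b).2.1 hB2 hB3
    hTb.continuous hTc hgc hgs (fun Y => hTe.1 b Y hκb)]
  have hdc : Continuous (fun Y : E => κ ⬝ᵥ Y) := by
    unfold dotProduct
    fun_prop
  -- the main term
  obtain ⟨A0, hA0⟩ : ∃ A0 : ℝ, A0 = 9 * nn (J b) * ε * (Real.pi / nn k) ^ (1 + α) := ⟨_, rfl⟩
  have hnb : 0 ≤ nn (J b) := Real.sqrt_nonneg _
  have hA00 : 0 ≤ A0 := by rw [hA0]; positivity
  obtain ⟨hWa1, hWa2⟩ := WW_hol α ε hα.le hε0 r x lam hlam hr J (J b)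
  rw [← hBJ] at hWa1
  have hD2 : ∀ Y, |2 * WW α r x lam J (J b) Y - WW α r x lam J (J b) (Y + h') -
      WW α r x lam J (J b) (Y - h')| ≤ A0 := by
    intro Y
    have e1 : 2 * WW α r x lam J (J b) Y - WW α r x lam J (J b) (Y + h') -
        WW α r x lam J (J b) (Y - h') = ∑ i, J b i * (2 * RR α (fun z => r z i) x lam (J Y) -
          RR α (fun z => r z i) x lam (J Y + h) - RR α (fun z => r z i) x lam (J Y - h)) := by
      unfold WW
      rw [map_add, map_sub, hJh]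
      simp only [Fin.sum_univ_three]
      ring
    rw [e1]
    have e2 : ∀ i ∈ (Finset.univ : Finset (Fin 3)), |J b i * (2 * RR α (fun z => r z i) x lam (J Y) -
        RR α (fun z => r z i) x lam (J Y + h) - RR α (fun z => r z i) x lam (J Y - h))| ≤
        3 * nn (J b) * ε * (Real.pi / nn k) ^ (1 + α) := by
      intro i _
      rw [abs_mul]
      have e3 := second α ε _ (RR_hol α ε (fun z => r z i) x lam hlam (hr i)).1 (J Y) h
      have hπk : 0 < Real.pi / nn k := by positivity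
      have e4 : 3 * (ε * ‖h‖ ^ α) * ‖h‖ ≤ 3 * ε * (Real.pi / nn k) ^ (1 + α) := by
        rw [Real.rpow_add hπk, Real.rpow_one]
        have e5 : ‖h‖ ^ α ≤ (Real.pi / nn k) ^ α := Real.rpow_le_rpow (norm_nonneg _) hnh hα.le
        calc 3 * (ε * ‖h‖ ^ α) * ‖h‖ ≤ 3 * (ε * (Real.pi / nn k) ^ α) * (Real.pi / nn k) := by
              refine mul_le_mul ?_ hnh (norm_nonneg _) (by positivity)
              exact mul_le_mul_of_nonneg_left (mul_le_mul_of_nonneg_left e5 hε0) (by norm_num)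
          _ = _ := by ring
      calc |J b i| * |2 * RR α (fun z => r z i) x lam (J Y) -
            RR α (fun z => r z i) x lam (J Y + h) - RR α (fun z => r z i) x lam (J Y - h)|
          ≤ nn (J b) * (3 * ε * (Real.pi / nn k) ^ (1 + α)) :=
            mul_le_mul (le_nn _ i) (e3.trans e4) (abs_nonneg _) hnb
        _ = _ := by ring
    refine (Finset.abs_sum_le_sum_abs _ _).trans ((Finset.sum_le_sum e2).trans (le_of_eq ?_))
    rw [hA0]
    simp
    ring
  have hmain := hC1 δ hδ _ A0 _ τ (by positivity) hA00 hWa1 hWa2 hD2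
  -- the other terms
  have hoth : ∀ j, |δ ^ 3 * (∫ Y, gth η κ δ Y j * Real.sin (κ ⬝ᵥ Y + τ) *
      WW α r x lam J (J (crossProduct (Pi.single j (1 : ℝ)) (crossProduct κ b))) Y)| ≤
      δ * (C2 j * (9 * ‖mj j‖ * BJ)) := by
    intro j
    have hmjj : J (crossProduct (Pi.single j (1 : ℝ)) (crossProduct κ b)) = mj j := by rw [hmj]
    rw [hmjj]
    obtain ⟨hW1, hW2⟩ := WW_hol α ε hα.le hε0 r x lam hlam hr J (mj j)
    rw [← hBJ] at hW1
    have hWc : Continuous (WW α r x lam J (mj j)) := hW1.1.continuous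
    have hH0 : 0 ≤ 9 * ‖mj j‖ * BJ * ε := by positivity
    have e1 := hC2 j _ _ hH0 hW1 hW2 δ hδ (τ - Real.pi / 2) 0 (by simp)
    have e2 := hC2 j _ _ hH0 hW1 hW2 δ hδ (τ - Real.pi / 2) (Real.pi • κ) hπκ
    have hint : ∀ q : E, Integrable (fun Y => WW α r x lam J (mj j) Y * pd j η (δ • (Y + q)) *
        Real.cos (κ ⬝ᵥ Y + (τ - Real.pi / 2))) := by
      intro q
      have f1 : Continuous (fun Y => pd j η Y) := (hgpd j).1.continuous
      have f2 : Continuous (fun Y : E => pd j η (δ • (Y + q))) :=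
        f1.comp ((continuous_const_smul δ).comp (continuous_id.add continuous_const))
      refine Continuous.integrable_of_hasCompactSupport ((hWc.mul f2).mul
        (Real.continuous_cos.comp (hdc.add continuous_const))) ?_
      exact HasCompactSupport.mul_right (HasCompactSupport.mul_left
        (hcs_scale _ (hgpd j).2 δ hδ0 q))
    have e3 : ∫ Y, gth η κ δ Y j * Real.sin (κ ⬝ᵥ Y + τ) * WW α r x lam J (mj j) Y =
        δ / 2 * ((∫ Y, WW α r x lam J (mj j) Y * pd j η (δ • (Y + 0)) *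
          Real.cos (κ ⬝ᵥ Y + (τ - Real.pi / 2))) +
          ∫ Y, WW α r x lam J (mj j) Y * pd j η (δ • (Y + Real.pi • κ)) *
          Real.cos (κ ⬝ᵥ Y + (τ - Real.pi / 2))) := by
      rw [← integral_add (hint 0) (hint (Real.pi • κ)), ← integral_const_mul]
      congr 1
      ext Y
      rw [hgj, add_zero, ← add_sub_assoc, Real.cos_sub_pi_div_two]
      ring
    rw [e3]
    have e4 : ∀ u v : ℝ, δ ^ 3 * (δ / 2 * (u + v)) = δ / 2 * (δ ^ 3 * u + δ ^ 3 * v) := by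
      intro u v; ring
    rw [e4, abs_mul, abs_of_pos (by positivity : 0 < δ / 2)]
    have e5 := (abs_add_le _ _).trans (add_le_add e1 e2)
    have e6 : C2 j * (9 * ‖mj j‖ * BJ * ε) ≤ C2 j * (9 * ‖mj j‖ * BJ) := by
      refine mul_le_mul_of_nonneg_left ?_ (hC20 j)
      have : 0 ≤ 9 * ‖mj j‖ * BJ := by positivity
      nlinarith
    refine (mul_le_mul_of_nonneg_left e5 (by positivity : 0 ≤ δ / 2)).trans ?_
    have e7 := mul_le_mul_of_nonneg_left e6 hδ0.le
    linarith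
  have hδa : δ ≤ δ ^ (1 - α) := by
    have := Real.rpow_le_rpow_of_exponent_ge hδ0 hδ.2 (by linarith : 1 - α ≤ 1)
    rwa [Real.rpow_one] at this
  have hδb : δ ^ (1 - α) ≤ ρ / (K + 1) := by
    have e1 := Real.rpow_le_rpow hδ0.le hδδ h1α.le
    rwa [← Real.rpow_mul (by positivity), one_div_mul_cancel h1α.ne', Real.rpow_one] at e1
  have hδc : 0 ≤ δ ^ (1 - α) := Real.rpow_nonneg hδ0.le _
  have hKρ : K * δ ^ (1 - α) ≤ ρ := by
    have e1 := mul_le_mul_of_nonneg_left hδb hK0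
    have e2 : K * (ρ / (K + 1)) ≤ ρ := by
      rw [mul_div_assoc', div_le_iff₀ (by positivity)]
      nlinarith
    linarith
  have hsum : |∑ j, δ ^ 3 * (∫ Y, gth η κ δ Y j * Real.sin (κ ⬝ᵥ Y + τ) *
      WW α r x lam J (J (crossProduct (Pi.single j (1 : ℝ)) (crossProduct κ b))) Y)| ≤
      (∑ j, C2 j * (9 * ‖mj j‖ * BJ)) * δ ^ (1 - α) := by
    refine (Finset.abs_sum_le_sum_abs _ _).trans ?_
    rw [Finset.sum_mul]
    refine Finset.sum_le_sum fun j _ => (hoth j).trans ?_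
    have : 0 ≤ C2 j * (9 * ‖mj j‖ * BJ) := by
      have := hC20 j
      positivity
    have := mul_le_mul_of_nonneg_left hδa this
    linarith
  have hA0b : (1 / 4) * A0 * (∫ Y, |η Y|) ≤
      (36 * Real.pi ^ 2 * (∫ Y, |η Y|) + 1) * ε * nn (J b) * (nn (cofv J κ)) ^ (-(1 + α)) := by
    rw [← hk, hA0, Real.div_rpow Real.pi_pos.le hk0.le, Real.rpow_neg hk0.le]
    have e1 : Real.pi ^ (1 + α) ≤ Real.pi ^ 2 := by
      have h3 : (1 : ℝ) ≤ Real.pi := by have := Real.pi_gt_three; linarith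
      have := Real.rpow_le_rpow_of_exponent_le h3 (by linarith : 1 + α ≤ 2)
      rwa [Real.rpow_two] at this
    have e2 : 0 < nn k ^ (1 + α) := Real.rpow_pos_of_pos hk0 _
    have e3 : 0 ≤ ε * nn (J b) * (nn k ^ (1 + α))⁻¹ := by positivity
    have e4 : (1 / 4) * (9 * Real.pi ^ (1 + α)) * (∫ Y, |η Y|) ≤
        36 * Real.pi ^ 2 * (∫ Y, |η Y|) + 1 := by
      have := mul_le_mul_of_nonneg_right e1 hη0
      have h5 : 0 ≤ Real.pi ^ 2 * ∫ Y, |η Y| := by positivity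
      linarith
    have e5 := mul_le_mul_of_nonneg_right e4 e3
    calc _ = (1 / 4) * (9 * Real.pi ^ (1 + α)) * (∫ Y, |η Y|) *
          (ε * nn (J b) * (nn k ^ (1 + α))⁻¹) := by rw [div_eq_mul_inv]; ring
      _ ≤ _ := e5
      _ = _ := by ring
  have hmain2 : C1 * (9 * ‖J b‖ * BJ * ε) * δ ^ (1 - α) ≤
      C1 * (9 * ‖J b‖ * BJ) * δ ^ (1 - α) := by
    refine mul_le_mul_of_nonneg_right ?_ hδc
    refine mul_le_mul_of_nonneg_left ?_ hC10
    have : 0 ≤ 9 * ‖J b‖ * BJ := by positivity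
    nlinarith
  refine (abs_sub _ _).trans ((add_le_add hmain hsum).trans ?_)
  rw [hK] at hKρ
  linarith

end Pool.Agent.Helper67.Torus
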